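import Pool.Agent.W345.GK.TF

/-!
# GK-TA3: action on alternants
-/

set_option autoImplicit false

open Polynomial Finset

namespace Pool.Agent.W103.GK

open Pool.Agent.W345.GK

section coeff

variable {L : Type} [Field L] {n : ℕ}

theorem aeval_eq (i : Fin n) (f : L[X]) (N : ℕ) (hN : f.natDegree < N) :
    aeval (MvPolynomial.X i : MvPolynomial (Fin n) L) f =
      ∑ k ∈ range N, MvPolynomial.monomial (Finsupp.single i k) (f.coeff k) := by
  rw [Polynomial.aeval_eq_sum_range' hN]
  refine Finset.sum_congr rfl fun k _ => ?_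
  rw [MvPolynomial.X_pow_eq_monomial, MvPolynomial.smul_monomial, smul_eq_mul, mul_one]

theorem prod_mono (s : Finset (Fin n)) (m : Fin n → (Fin n →₀ ℕ)) (a : Fin n → L) :
    ∏ i ∈ s, MvPolynomial.monomial (m i) (a i) =
      MvPolynomial.monomial (∑ i ∈ s, m i) (∏ i ∈ s, a i) := by
  classical
  induction s using Finset.induction_on with
  | empty => simp
  | insert b s hb ih =>
    rw [Finset.prod_insert hb, Finset.prod_insert hb, Finset.sum_insert hb, ih,
      MvPolynomial.monomial_mul]

theorem sum_single_apply (κ : Fin n → ℕ) (j : Fin n) :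
    (∑ i, Finsupp.single i (κ i) : Fin n →₀ ℕ) j = κ j := by
  rw [Finsupp.finsetSum_apply]
  simp [Finsupp.single_apply]

theorem coeff_prod (f : Fin n → L[X]) (t : Fin n →₀ ℕ) :
    (∏ i, aeval (MvPolynomial.X i : MvPolynomial (Fin n) L) (f i)).coeff t =
      ∏ i, (f i).coeff (t i) := by
  classical
  set N : ℕ := (∑ i, (f i).natDegree) + (∑ i, t i) + 1 with hN
  have h1 : ∀ i, (f i).natDegree < N := by
    intro i
    have := Finset.single_le_sum (f := fun i => (f i).natDegree) (fun _ _ => Nat.zero_le _)
      (Finset.mem_univ i)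
    omega
  have h2 : ∀ i, t i < N := by
    intro i
    have := Finset.single_le_sum (f := fun i => t i) (fun _ _ => Nat.zero_le _)
      (Finset.mem_univ i)
    omega
  rw [Finset.prod_congr rfl (fun i _ => aeval_eq i (f i) N (h1 i)), Finset.prod_univ_sum,
    MvPolynomial.coeff_sum]
  rw [Finset.sum_eq_single (fun i => t i)]
  · rw [prod_mono, MvPolynomial.coeff_monomial, if_pos]
    ext j
    rw [sum_single_apply]
  · intro κ _ hκ
    rw [prod_mono, MvPolynomial.coeff_monomial, if_neg]
    intro h
    apply hκ
    funext j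
    rw [← sum_single_apply κ j, h]
  · intro h
    exact absurd (Fintype.mem_piFinset.2 fun i => Finset.mem_range.2 (h2 i)) h

theorem coeff_PR_alt (R : L[X]) (s : Fin n → ℕ) (u : Fin n →₀ ℕ) :
    (PR n R * alt s).coeff u = (Matrix.of fun i j => (R * X ^ s j).coeff (u i)).det := by
  unfold PR alt
  rw [← Matrix.det_transpose, Matrix.det_apply', Finset.mul_sum, MvPolynomial.coeff_sum,
    ← Matrix.det_transpose, Matrix.det_apply']
  refine Finset.sum_congr rfl fun σ _ => ?_
  have h1 : (∏ l : Fin n, aeval (MvPolynomial.X l : MvPolynomial (Fin n) L) R) *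
      (((Equiv.Perm.sign σ : ℤ) : MvPolynomial (Fin n) L) *
        ∏ i, (Matrix.of fun i j => (MvPolynomial.X i : MvPolynomial (Fin n) L) ^ s j).transpose
          (σ i) i) =
      MvPolynomial.C ((Equiv.Perm.sign σ : ℤ) : L) *
        ∏ i, aeval (MvPolynomial.X i : MvPolynomial (Fin n) L) (R * X ^ s (σ i)) := by
    rw [mul_left_comm, ← Finset.prod_mul_distrib, map_intCast]
    congr 1
    refine Finset.prod_congr rfl fun i _ => ?_
    rw [map_mul, map_pow, aeval_X]
    rfl
  rw [h1, MvPolynomial.coeff_C_mul, coeff_prod]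
  rfl

theorem PR_one : PR n (1 : L[X]) = 1 := by
  unfold PR
  simp

theorem coeff_alt (s : Fin n → ℕ) (u : Fin n →₀ ℕ) :
    (alt s : MvPolynomial (Fin n) L).coeff u =
      (Matrix.of fun i j => if u i = s j then (1 : L) else 0).det := by
  have h := coeff_PR_alt (1 : L[X]) s u
  rw [PR_one, one_mul] at h
  rw [h]
  congr 1
  ext i j
  show ((1 : L[X]) * X ^ s j).coeff (u i) = if u i = s j then (1 : L) else 0
  rw [one_mul, coeff_X_pow]

end coeff

section cb

variable {L : Type} [Field L] {n M : ℕ}

theorem mem_St (s : Fin n → Fin (M + 1)) : s ∈ St n M ↔ StrictAnti s := by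
  unfold St
  simp

theorem anti_eq {f g : Fin n → Fin (M + 1)} (hf : StrictAnti f) (hg : StrictAnti g)
    (h : Set.range f = Set.range g) : f = g := by
  have hf' : StrictMono (OrderDual.toDual ∘ f) := hf.dual_right
  have hg' : StrictMono (OrderDual.toDual ∘ g) := hg.dual_right
  have h1 : Set.range (OrderDual.toDual ∘ f) = Set.range (OrderDual.toDual ∘ g) := by
    rw [Set.range_comp, Set.range_comp, h]
  have h2 := (StrictMono.range_inj hf' hg').1 h1
  funext i
  exact congrFun h2 i

theorem cb (A : Matrix (Fin (M + 1)) (Fin (M + 1)) L) (τ s : Fin n → Fin (M + 1)) :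
    (A.submatrix τ s).det = ∑ s' ∈ St n M, (A.submatrix s' s).det *
      (Matrix.of fun i j => if τ i = s' j then (1 : L) else 0).det := by
  by_cases hτ : Function.Injective τ
  · set π := Tuple.sort (OrderDual.toDual ∘ τ) with hπ
    have hmono : Monotone ((OrderDual.toDual ∘ τ) ∘ π) := Tuple.monotone_sort _
    have hanti : Antitone (τ ∘ π) := fun a b hab => hmono hab
    have hs0 : StrictAnti (τ ∘ π) :=
      hanti.strictAnti_of_injective (hτ.comp π.injective)
    rw [Finset.sum_eq_single (τ ∘ π)]
    · have e1 : A.submatrix τ s = (A.submatrix (τ ∘ π) s).submatrix (π⁻¹ : Equiv.Perm (Fin n)) id := by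
        ext i j
        simp
      have e2 : (Matrix.of fun i j => if τ i = (τ ∘ π) j then (1 : L) else 0) =
          (1 : Matrix (Fin n) (Fin n) L).submatrix (π⁻¹ : Equiv.Perm (Fin n)) id := by
        ext i j
        show (if τ i = τ (π j) then (1 : L) else 0) = (1 : Matrix (Fin n) (Fin n) L) (π⁻¹ i) j
        rw [Matrix.one_apply]
        by_cases h : i = π j
        · rw [if_pos (by rw [h]), if_pos (by rw [h]; simp)]
        · rw [if_neg (fun h2 => h (hτ h2)), if_neg (fun h2 => h (by rw [← h2]; simp))]
      rw [e1, e2, Matrix.det_permute, Matrix.det_permute, Matrix.det_one, mul_one, mul_comm]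
    · intro s' hs' hne
      have hz : (Matrix.of fun i j => if τ i = s' j then (1 : L) else 0).det = 0 := by
       rw [Matrix.det_apply']
       refine Finset.sum_eq_zero ?_
       intro σ _
       by_cases hall : ∀ i, τ (σ i) = s' i
       · exfalso
         apply hne
         apply anti_eq ((mem_St s').1 hs') hs0
         have e : s' = τ ∘ σ := by
           funext i
           exact (hall i).symm
         rw [e, Set.range_comp, Set.range_comp, σ.surjective.range_eq, π.surjective.range_eq]
       · push Not at hall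
         obtain ⟨i, hi⟩ := hall
         rw [Finset.prod_eq_zero (Finset.mem_univ i), mul_zero]
         show (if τ (σ i) = s' i then (1 : L) else 0) = 0
         rw [if_neg hi]
      rw [hz, mul_zero]
    · intro h
      exact absurd ((mem_St _).2 hs0) h
  · unfold Function.Injective at hτ
    push Not at hτ
    obtain ⟨a, b, hab, hne⟩ := hτ
    rw [Matrix.det_zero_of_row_eq hne (by
      funext j
      show A (τ a) (s j) = A (τ b) (s j)
      rw [hab])]
    symm
    refine Finset.sum_eq_zero fun s' _ => ?_
    have hz : (Matrix.of fun i j => if τ i = s' j then (1 : L) else 0).det = 0 :=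
      Matrix.det_zero_of_row_eq hne (by
        funext j
        show (if τ a = s' j then (1 : L) else 0) = if τ b = s' j then (1 : L) else 0
        rw [hab])
    rw [hz, mul_zero]

end cb

theorem ta3 : S_TA2 → S_TA3 := by
  intro h2 L _ q hq M n R hR s _
  ext t
  rw [(h2 L q hq n).1, coeff_PR_alt, MvPolynomial.coeff_sum]
  have hup : ∀ i, up q t i = q * t i + (q - 1) := fun i => rfl
  by_cases ht : ∀ i, t i ≤ M
  · have h3 := cb (AA q M R) (fun i => (⟨t i, Nat.lt_succ_of_le (ht i)⟩ : Fin (M + 1))) s
    have e1 : (Matrix.of fun i j => (R * X ^ (s j : ℕ)).coeff (up q t i)) =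
        (AA q M R).submatrix (fun i => (⟨t i, Nat.lt_succ_of_le (ht i)⟩ : Fin (M + 1))) s := by
      ext i j
      show (R * X ^ (s j : ℕ)).coeff (up q t i) = AA q M R _ (s j)
      rw [coeff_mul_X_pow', hup]
      rfl
    rw [e1, h3]
    refine Finset.sum_congr rfl fun s' _ => ?_
    rw [MvPolynomial.coeff_smul, smul_eq_mul, coeff_alt]
    congr 2
    ext i j
    show (if (⟨t i, Nat.lt_succ_of_le (ht i)⟩ : Fin (M + 1)) = s' j then (1 : L) else 0) =
      if t i = (s' j : ℕ) then (1 : L) else 0
    simp only [Fin.ext_iff]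
  · push Not at ht
    obtain ⟨i, hi⟩ := ht
    rw [Matrix.det_eq_zero_of_row_eq_zero i]
    · symm
      refine Finset.sum_eq_zero fun s' _ => ?_
      have hz : (Matrix.of fun i j => if t i = (s' j : ℕ) then (1 : L) else 0).det = 0 := by
        apply Matrix.det_eq_zero_of_row_eq_zero i
        intro j
        show (if t i = (s' j : ℕ) then (1 : L) else 0) = 0
        rw [if_neg]
        have := (s' j).isLt
        omega
      rw [MvPolynomial.coeff_smul, smul_eq_mul, coeff_alt, hz, mul_zero]
    · intro j
      show (R * X ^ (s j : ℕ)).coeff (up q t i) = 0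
      rw [coeff_mul_X_pow', hup]
      split_ifs with h4
      · apply coeff_eq_zero_of_natDegree_lt
        have h5 := (s j).isLt
        obtain ⟨p, rfl⟩ : ∃ p, q = p + 1 := ⟨q - 1, by omega⟩
        have h6 : (p + 1) * (M + 1) ≤ (p + 1) * t i := Nat.mul_le_mul_left _ hi
        have h7 : (p + 1) * (M + 1) = (p + 1 - 1) * (M + 1) + (M + 1) := by
          rw [Nat.add_sub_cancel]
          ring
        omega
      · rfl

end Pool.Agent.W103.GK
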